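import Mathlib
import Pool.Agent.TH418.OC.Core

set_option autoImplicit false

/-!
# Spanning subdigraphs of large minimum out-degree which are locally levelled

A digraph is levelled if it has a homomorphism to the two-way infinite directed path, that is, if
its vertices can be labelled by integers so that the label goes up by one along every arc. For all
`m` and `k` there is `d` such that every finite digraph of minimum out-degree at least `d` has a
spanning subdigraph of minimum out-degree at least `k` all of whose subdigraphs on at most `m`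
vertices are levelled. So every digraph which is not levelled is avoidable; this contains
the orientations of odd cycles (Q1 of MP_fac9f6_co), all directed cycles, all orientations of all
graphs which are not bipartite, and all orientations of even cycles with different numbers of
forward and backward arcs, and one subdigraph avoids all those of bounded order at once.
-/

namespace Pool.Agent.Results.MP_fac9f6_co.LocallyLevelled

/-- A digraph: a set `verts` of vertices (inside a type `V`) and arcs `Arc x y` between vertices,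
without loops. There are no parallel arcs, and both `(x, y)` and `(y, x)` may be arcs. -/
structure DG (V : Type) where
  /-- the vertex set -/
  verts : Set V
  /-- the arcs -/
  Arc : V → V → Prop
  arc_mem : ∀ x y, Arc x y → x ∈ verts ∧ y ∈ verts
  loopless : ∀ x, ¬ Arc x x

/-- `H` is a subdigraph of `D`: `V(H) ⊆ V(D)` and `A(H) ⊆ A(D)`. -/
def DG.IsSub {V : Type} (H D : DG V) : Prop :=
  H.verts ⊆ D.verts ∧ ∀ x y, H.Arc x y → D.Arc x y

/-- The digraphs `F` and `H` are isomorphic. -/
def DG.IsoTo {W V : Type} (F : DG W) (H : DG V) : Prop :=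
  ∃ e : F.verts ≃ H.verts, ∀ x y : F.verts, F.Arc x y ↔ H.Arc (e x) (e y)

/-- `D` is `F`-free: no subdigraph of `D` is isomorphic to `F`. -/
def DG.IsFree {V W : Type} (D : DG V) (F : DG W) : Prop :=
  ∀ H : DG V, H.IsSub D → ¬ F.IsoTo H

/-- The out-degree of `x` in `D`: the number of `y` such that `(x, y)` is an arc. -/
noncomputable def DG.outDeg {V : Type} (D : DG V) (x : V) : ℕ := {y | D.Arc x y}.ncard

/-- All out-degrees of vertices of `D` are at least `k`; for `D` finite and non-empty this says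
that the minimum out-degree of `D` is at least `k`. -/
def DG.MinOutDegGe {V : Type} (D : DG V) (k : ℕ) : Prop := ∀ x ∈ D.verts, k ≤ D.outDeg x

/-- `F` is avoidable: there is a function `dF : ℕ → ℕ` such that for every `k`, every finite
(non-empty) digraph with minimum out-degree at least `dF k` contains a non-empty `F`-free
subdigraph with minimum out-degree at least `k`. -/
def Avoidable {W : Type} (F : DG W) : Prop :=
  ∃ dF : ℕ → ℕ, ∀ k : ℕ, ∀ (V : Type) (D : DG V), D.verts.Finite → D.verts.Nonempty →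
    D.MinOutDegGe (dF k) →
      ∃ D' : DG V, D'.IsSub D ∧ D'.verts.Nonempty ∧ D'.IsFree F ∧ D'.MinOutDegGe k

/-- `F` is an orientation of the cycle `C_n` on the vertex set `Fin n`: it has all `n` vertices,
arcs join only vertices adjacent in `C_n`, and every edge of `C_n` gets exactly one of its two
directions. -/
def IsOrientationOfCycle {n : ℕ} (F : DG (Fin n)) : Prop :=
  F.verts = Set.univ ∧
    (∀ i j, F.Arc i j → (SimpleGraph.cycleGraph n).Adj i j) ∧
    (∀ i j, (SimpleGraph.cycleGraph n).Adj i j →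
      (F.Arc i j ∧ ¬ F.Arc j i) ∨ (F.Arc j i ∧ ¬ F.Arc i j))

/-- `F` is levelled: integers can be assigned to the vertices so that the end of every arc has the
integer of its start plus one; in other words `F` has a homomorphism to the two-way infinite
directed path. -/
def DG.Levelled {V : Type} (F : DG V) : Prop :=
  ∃ lev : V → ℤ, ∀ x y, F.Arc x y → lev y = lev x + 1

/-- there is a walk of length `l` from `x` to `y`, arcs being used in both directions, with net
length `h` -/
def W {V : Type} (A : V → V → Prop) : ℕ → V → V → ℤ → Prop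
  | 0, x, y, h => x = y ∧ h = 0
  | l + 1, x, y, h => ∃ z h', W A l x z h' ∧ ((A z y ∧ h = h' + 1) ∨ (A y z ∧ h = h' - 1))

theorem W_trans {V : Type} {A : V → V → Prop} {a : ℕ} {x y : V} {h : ℤ} (h1 : W A a x y h) :
    ∀ (b : ℕ) (z : V) (h' : ℤ), W A b y z h' → W A (a + b) x z (h + h') := by
  intro b
  induction b with
  | zero =>
    rintro z h' ⟨rfl, rfl⟩
    simpa using h1
  | succ b ih =>
    rintro z h' ⟨w, h2, hw, hs⟩
    refine ⟨w, h + h2, ih w h2 hw, ?_⟩
    rcases hs with ⟨h3, h4⟩ | ⟨h3, h4⟩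
    · left
      exact ⟨h3, by omega⟩
    · right
      exact ⟨h3, by omega⟩

theorem W_symm {V : Type} {A : V → V → Prop} : ∀ (a : ℕ) (x y : V) (h : ℤ), W A a x y h →
    W A a y x (-h) := by
  intro a
  induction a with
  | zero =>
    rintro x y h ⟨rfl, rfl⟩
    exact ⟨rfl, by simp⟩
  | succ a ih =>
    rintro x y h ⟨z, h', hz, hs⟩
    have h1 : W A 1 y z (h' - h) := by
      refine ⟨y, 0, ⟨rfl, rfl⟩, ?_⟩
      rcases hs with ⟨h3, h4⟩ | ⟨h3, h4⟩
      · right
        exact ⟨h3, by omega⟩
      · left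
        exact ⟨h3, by omega⟩
    have h2 := W_trans h1 a x (-h') (ih x z h' hz)
    have e1 : a + 1 = 1 + a := Nat.add_comm _ _
    have e2 : -h = h' - h + -h' := by ring
    rw [e1, e2]
    exact h2

theorem W_seq {V : Type} {A : V → V → Prop} : ∀ (l : ℕ) (x y : V) (h : ℤ), W A l x y h →
    ∃ (s : ℕ → V) (H : ℕ → ℤ), s 0 = x ∧ s l = y ∧ H 0 = 0 ∧ H l = h ∧
      ∀ j < l, (A (s j) (s (j + 1)) ∧ H (j + 1) = H j + 1) ∨
        (A (s (j + 1)) (s j) ∧ H (j + 1) = H j - 1) := by
  intro l
  induction l with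
  | zero =>
    rintro x y h ⟨rfl, rfl⟩
    exact ⟨fun _ => x, fun _ => 0, rfl, rfl, rfl, rfl, fun j hj => absurd hj (by omega)⟩
  | succ l ih =>
    rintro x y h ⟨z, h', hz, hs⟩
    obtain ⟨s, H, h0, h1, h2, h3, h4⟩ := ih x z h' hz
    refine ⟨fun j => if j ≤ l then s j else y, fun j => if j ≤ l then H j else h, by simp [h0],
      by simp, by simp [h2], by simp, ?_⟩
    intro j hj
    rcases Nat.lt_or_ge j l with hjl | hjl
    · simp only [show j ≤ l from hjl.le, show j + 1 ≤ l from hjl, if_true]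
      exact h4 j hjl
    · have : j = l := by omega
      subst this
      simp only [le_refl, if_true, show ¬ (j + 1 ≤ j) by omega, if_false, h1, h3]
      exact hs

/-- short closed walks being balanced, small digraphs are levelled -/
theorem lev_of_bal {U : Type} (A : U → U → Prop) (S : Set U) (hS : S.Finite) (m : ℕ)
    (hm : S.ncard ≤ m) (hA : ∀ x y, A x y → x ∈ S ∧ y ∈ S)
    (hbal : ∀ (l : ℕ) (x : U) (h : ℤ), l ≤ 2 * m + 1 → W A l x x h → h = 0) :
    ∃ lev : U → ℤ, ∀ x y, A x y → lev y = lev x + 1 := by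
  classical
  have : Fintype S := hS.fintype
  have hcard : Fintype.card S ≤ m := by
    rw [← Nat.card_eq_fintype_card]
    exact hm
  set G : SimpleGraph S := SimpleGraph.fromRel (fun a b : S => A a b) with hG
  -- walks in the underlying graph
  have hwalk : ∀ (a b : S) (p : G.Walk a b), ∃ h : ℤ, W A p.length (a : U) (b : U) h := by
    intro a b p
    induction p with
    | nil => exact ⟨0, rfl, rfl⟩
    | @cons u v w hadj p ih =>
      obtain ⟨h, hh⟩ := ih
      rw [hG, SimpleGraph.fromRel_adj] at hadj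
      rcases hadj.2 with h1 | h1
      · have h2 : W A 1 (u : U) (v : U) 1 := ⟨u, 0, ⟨rfl, rfl⟩, Or.inl ⟨h1, by norm_num⟩⟩
        refine ⟨1 + h, ?_⟩
        have h3 := W_trans h2 _ _ _ hh
        rw [SimpleGraph.Walk.length_cons, Nat.add_comm]
        exact h3
      · have h2 : W A 1 (u : U) (v : U) (-1) := ⟨u, 0, ⟨rfl, rfl⟩, Or.inr ⟨h1, by norm_num⟩⟩
        refine ⟨-1 + h, ?_⟩
        have h3 := W_trans h2 _ _ _ hh
        rw [SimpleGraph.Walk.length_cons, Nat.add_comm]
        exact h3
  have hshort : ∀ a : S, ∃ (l : ℕ) (h : ℤ), l ≤ m ∧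
      W A l ((G.connectedComponentMk a).out : U) (a : U) h := by
    intro a
    have hr : G.Reachable (G.connectedComponentMk a).out a := by
      rw [← SimpleGraph.ConnectedComponent.eq]
      exact Quot.out_eq _
    obtain ⟨p, hp⟩ := hr.exists_isPath
    obtain ⟨h, hh⟩ := hwalk _ _ p
    exact ⟨p.length, h, by have := hp.length_lt; omega, hh⟩
  choose l h hl hW using hshort
  refine ⟨fun v => if hv : v ∈ S then h ⟨v, hv⟩ else 0, ?_⟩
  intro x y hxy
  obtain ⟨hx, hy⟩ := hA x y hxy
  have hne : x ≠ y := by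
    rintro rfl
    have h1 : W A 1 x x 1 := ⟨x, 0, ⟨rfl, rfl⟩, Or.inl ⟨hxy, by norm_num⟩⟩
    have h2 := hbal 1 x 1 (by omega) h1
    exact one_ne_zero h2
  have hadj : G.Adj ⟨x, hx⟩ ⟨y, hy⟩ := by
    rw [hG, SimpleGraph.fromRel_adj]
    exact ⟨fun h => hne (congrArg Subtype.val h), Or.inl hxy⟩
  have hcc : G.connectedComponentMk ⟨x, hx⟩ = G.connectedComponentMk ⟨y, hy⟩ :=
    SimpleGraph.ConnectedComponent.eq.mpr hadj.reachable
  have h1 := hW ⟨x, hx⟩
  have h2 := hW ⟨y, hy⟩
  rw [← hcc] at h2
  have h3 : W A 1 x y 1 := ⟨x, 0, ⟨rfl, rfl⟩, Or.inl ⟨hxy, by norm_num⟩⟩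
  have h4 := W_trans (W_trans h1 1 y 1 h3) _ _ _ (W_symm _ _ _ _ h2)
  have h5 := hbal _ _ _ (by have := hl ⟨x, hx⟩; have := hl ⟨y, hy⟩; omega) h4
  simp only [hx, hy, dif_pos]
  omega

/-- **Locally levelled spanning subdigraphs.** -/
theorem spanning (m k : ℕ) : ∃ d : ℕ, ∀ (V : Type) (D : DG V), D.verts.Finite →
    D.MinOutDegGe d → ∃ D' : DG V, D'.IsSub D ∧ D'.verts = D.verts ∧ D'.MinOutDegGe k ∧
      ∀ H : DG V, H.IsSub D' → H.verts.ncard ≤ m → H.Levelled := by
  classical
  obtain ⟨d, hd⟩ := Pool.Agent.TH418.OC.core (2 * m + 1) k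
  refine ⟨d, fun V D hfin hdeg => ?_⟩
  have : Fintype D.verts := hfin.fintype
  obtain ⟨N, hN⟩ : ∃ N : D.verts → Finset D.verts,
      ∀ x y, y ∈ N x ↔ D.Arc x y :=
    ⟨fun x => Finset.univ.filter (fun y : D.verts => D.Arc x y), fun x y => by simp⟩
  obtain ⟨N', hsub, hcard, hbal⟩ := hd D.verts N
    (fun v hv => D.loopless v ((hN v v).1 hv))
    (by
      intro v
      have h1 := hdeg v v.2
      have h2 : {y | D.Arc v y} = Subtype.val '' (N v : Set D.verts) := by
        ext y
        constructor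
        · intro hy
          exact ⟨⟨y, (D.arc_mem _ _ hy).2⟩, (hN v _).2 hy, rfl⟩
        · rintro ⟨z, hz, rfl⟩
          exact (hN v z).1 hz
      rw [DG.outDeg, h2, Set.ncard_image_of_injective _ Subtype.val_injective,
        Set.ncard_coe_finset] at h1
      exact h1)
  refine ⟨⟨D.verts, fun x y => ∃ (hx : x ∈ D.verts) (hy : y ∈ D.verts),
    (⟨y, hy⟩ : D.verts) ∈ N' ⟨x, hx⟩, fun x y h => ⟨h.1, h.2.1⟩, ?_⟩, ⟨subset_rfl, ?_⟩, rfl, ?_, ?_⟩
  · rintro x ⟨hx, _, h⟩
    exact D.loopless x ((hN _ _).1 (hsub _ h))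
  · rintro x y ⟨hx, hy, h⟩
    exact (hN _ _).1 (hsub _ h)
  · intro x hx
    have hx' : x ∈ D.verts := hx
    have h2 : {y | ∃ (hx : x ∈ D.verts) (hy : y ∈ D.verts),
        (⟨y, hy⟩ : D.verts) ∈ N' ⟨x, hx⟩} = Subtype.val '' (N' ⟨x, hx'⟩ : Set D.verts) := by
      ext y
      constructor
      · rintro ⟨_, hy, h⟩
        exact ⟨⟨y, hy⟩, h, rfl⟩
      · rintro ⟨z, hz, rfl⟩
        exact ⟨hx', z.2, hz⟩
    show k ≤ Set.ncard _
    rw [h2, Set.ncard_image_of_injective _ Subtype.val_injective, Set.ncard_coe_finset]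
    exact hcard _
  · rintro H ⟨hHv, hHa⟩ hHm
    have hHv' : H.verts ⊆ D.verts := hHv
    have hS : (Subtype.val ⁻¹' H.verts : Set D.verts).ncard ≤ m := by
      rw [← Set.ncard_image_of_injective _ Subtype.val_injective, Subtype.image_preimage_coe,
        Set.inter_eq_self_of_subset_right hHv']
      exact hHm
    obtain ⟨lev, hlev⟩ := lev_of_bal (fun a b : D.verts => H.Arc a b)
      (Subtype.val ⁻¹' H.verts) (Set.toFinite _) m hS
      (fun x y hxy => H.arc_mem _ _ hxy)
      (by
        intro l x h hl hw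
        obtain ⟨s, H', h0, h1, h2, h3, h4⟩ := W_seq l x x h hw
        have harc : ∀ a b : D.verts, H.Arc a b → b ∈ N' a := by
          intro a b hab
          obtain ⟨_, _, h6⟩ := hHa _ _ hab
          exact h6
        have h5 := hbal l s H' hl h2
          (by
            intro j hj
            rcases h4 j hj with h6 | h6
            · exact Or.inl ⟨harc _ _ h6.1, h6.2⟩
            · exact Or.inr ⟨harc _ _ h6.1, h6.2⟩)
          (by rw [h0, h1])
        rw [← h3]
        exact h5)
    refine ⟨fun v => if hv : v ∈ D.verts then lev ⟨v, hv⟩ else 0, ?_⟩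
    intro x y hxy
    have hx : x ∈ D.verts := hHv' (H.arc_mem _ _ hxy).1
    have hy : y ∈ D.verts := hHv' (H.arc_mem _ _ hxy).2
    simp only [hx, hy, dif_pos]
    exact hlev ⟨x, hx⟩ ⟨y, hy⟩ hxy

/-- Every digraph which is not levelled is avoidable. -/
theorem avoid {W : Type} (F : DG W) (hnl : ¬ F.Levelled) :
    Avoidable F := by
  classical
  choose dF hdF using fun k => spanning F.verts.ncard k
  refine ⟨dF, fun k V D hfin hne hdeg => ?_⟩
  obtain ⟨D', h1, h2, h3, h4⟩ := hdF k V D hfin hdeg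
  refine ⟨D', h1, by rw [h2]; exact hne, ?_, h3⟩
  rintro H hH ⟨e, he⟩
  have hcard : H.verts.ncard ≤ F.verts.ncard := by
    rw [← Nat.card_coe_set_eq, ← Nat.card_coe_set_eq, Nat.card_congr e]
  obtain ⟨lev, hlev⟩ := h4 H hH hcard
  apply hnl
  refine ⟨fun v => if hv : v ∈ F.verts then lev (e ⟨v, hv⟩) else 0, ?_⟩
  intro x y hxy
  have hx := (F.arc_mem _ _ hxy).1
  have hy := (F.arc_mem _ _ hxy).2
  simp only [hx, hy, dif_pos]
  exact hlev _ _ ((he ⟨x, hx⟩ ⟨y, hy⟩).1 hxy)

/-- An orientation of an odd cycle is not levelled. -/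
theorem not_levelled {n : ℕ} (hn : 3 ≤ n) (hodd : Odd n) (F : DG (Fin n))
    (hF : IsOrientationOfCycle F) : ¬ F.Levelled := by
  rintro ⟨lev, hlev⟩
  obtain ⟨m, rfl⟩ : ∃ m, n = m + 2 := ⟨n - 2, by omega⟩
  obtain ⟨-, -, hFx⟩ := hF
  obtain ⟨q, hq⟩ : ∃ q : ℕ → Fin (m + 2), ∀ j, (q j).val = j % (m + 2) :=
    ⟨fun j => ⟨j % (m + 2), Nat.mod_lt _ (by omega)⟩, fun j => rfl⟩
  have hq1 : ∀ j, q (j + 1) = q j + 1 := by
    intro j
    apply Fin.ext
    rw [Fin.val_add, hq, hq, Fin.val_one, Nat.mod_add_mod]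
  have hadj : ∀ j : ℕ, (SimpleGraph.cycleGraph (m + 2)).Adj (q j) (q (j + 1)) := by
    intro j
    rw [SimpleGraph.cycleGraph_adj, hq1]
    right
    exact add_sub_cancel_left _ _
  have hpar : ∀ l : ℕ, (lev (q l) - lev (q 0)) % 2 = (l : ℤ) % 2 := by
    intro l
    induction l with
    | zero => simp
    | succ l ih =>
      push_cast
      rcases hFx _ _ (hadj l) with h | h
      · have := hlev _ _ h.1
        omega
      · have := hlev _ _ h.1
        omega
  have h1 := hpar (m + 2)
  have h2 : q (m + 2) = q 0 := Fin.ext (by rw [hq, hq, Nat.mod_self, Nat.zero_mod])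
  rw [h2] at h1
  obtain ⟨r, hr⟩ := hodd
  push_cast at h1
  omega

/-- (1) For all `m` and `k` there is `d` such that every finite digraph of minimum out-degree at
least `d` has a spanning subdigraph of minimum out-degree at least `k` all of whose subdigraphs on
at most `m` vertices are levelled. (2) So every digraph which is not levelled is avoidable.
(3) In particular every orientation of every odd cycle is avoidable. -/
theorem result :
    (∀ m k : ℕ, ∃ d : ℕ, ∀ (V : Type) (D : DG V), D.verts.Finite → D.MinOutDegGe d →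
      ∃ D' : DG V, D'.IsSub D ∧ D'.verts = D.verts ∧ D'.MinOutDegGe k ∧
        ∀ H : DG V, H.IsSub D' → H.verts.ncard ≤ m → H.Levelled) ∧
    (∀ (W : Type) (F : DG W), ¬ F.Levelled → Avoidable F) ∧
    (∀ n : ℕ, 3 ≤ n → Odd n → ∀ F : DG (Fin n), IsOrientationOfCycle F → Avoidable F) :=
  ⟨spanning, fun _ F hnl => avoid F hnl, fun _ hn hodd F hF =>
    avoid F (not_levelled hn hodd F hF)⟩

end Pool.Agent.Results.MP_fac9f6_co.LocallyLevelled
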